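import Pool.Agent.X111.PA.Unt

set_option autoImplicit false
set_option linter.unusedSectionVars false

/-! The central limit theorem at several points near the line: conclusion. -/

namespace Pool.Agent.X111.PA

open Finset MeasureTheory Filter Topology
open Pool.Agent.X111.MS
open Pool.Agent.X110.RR (GS GS_meas ratio)
open Pool.Agent.Y746.OA (sp)
open Pool.Agent.Y753.SHL (lf qf Nor)

noncomputable section

variable {n : ℕ} {D X : Fin n → ℝ → ℝ} {d V L : ℝ → ℝ} {r : Fin n → Fin n → ℝ}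

/-- the truncated mass is at least `T / 2` -/
lemma Hyp.mass (h : Hyp D X d V L r) (β : Fin n → ℝ) : ∀ᶠ T : ℝ in atTop,
    T / 2 ≤ ∫ t in Set.Ioc 0 T ∩ GS (d T) (V T) (WW D X d T), pd (d T) (WW D X d T) β t := by
  obtain ⟨K, hK⟩ : ∃ K : ℕ, (∑ j, |β j|) + 1 ≤ K := exists_nat_ge _
  have hβ : ∀ j, |β j| ≤ K := fun j => by
    have := Finset.single_le_sum (f := fun j => |β j|) (fun i _ => abs_nonneg _) (mem_univ j)
    linarith
  have h0 := h.mom (y := fun _ => β) (K := K) (Eventually.of_forall fun T j => hβ j)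
  filter_upwards [(h0.eventually (lt_mem_nhds (show (1 / 2:ℝ) < 1 by norm_num))).mono fun T hT => le_of_lt hT, h.rng 1 1 0 one_pos, eventually_gt_atTop 0] with T g1 ⟨k1, k2, k3, k4, k5, k6⟩ g3
  have hD := DG_ge hβ (fun j => (k6 j).1) k2
  have e : ∫ t in Set.Ioc 0 T ∩ GS (d T) (V T) (WW D X d T), pd (d T) (WW D X d T) β t = JI (d T) (V T) T (WW D X d T) β := rfl
  rw [e]
  rw [le_div_iff₀ (by positivity)] at g1
  refine le_trans ?_ g1
  have : T * 1 ≤ T * DG β (WW D X d T) (d T) := mul_le_mul_of_nonneg_left hD g3.le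
  linarith

/-- integrability on the excluded set, and the size of its contribution -/
lemma Hyp.badi (h : Hyp D X d V L r) {β : Fin n → ℝ} (hβ : ∀ j, 0 ≤ β j) (hs : ∑ j, β j < 2) {ε : ℝ} (hε : 0 < ε) : ∀ᶠ T : ℝ in atTop,
    IntegrableOn (pd (d T) (WW D X d T) β) (Set.Ioc 0 T \ GS (d T) (V T) (WW D X d T)) ∧
    ∫ t in Set.Ioc 0 T \ GS (d T) (V T) (WW D X d T), pd (d T) (WW D X d T) β t ≤ ε * T := by
  filter_upwards [h.badm hβ hs hε, eventually_gt_atTop 0] with T h1 hT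
  have hm := (pd_meas (d T) (WW D X d T) β).aestronglyMeasurable (μ := volume.restrict (Set.Ioc 0 T \ GS (d T) (V T) (WW D X d T)))
  constructor
  · refine ⟨hm, ?_⟩
    rw [hasFiniteIntegral_iff_ofReal (Eventually.of_forall fun t => pd_nn _ _ _ _)]
    exact h1.trans_lt ENNReal.ofReal_lt_top
  · rw [integral_eq_lintegral_of_nonneg_ae (Eventually.of_forall fun t => pd_nn _ _ _ _) hm]
    exact ENNReal.toReal_le_of_le_ofReal (by positivity) h1

/-- everything together -/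
theorem Hyp.full (h : Hyp D X d V L r) (β : Fin n → ℝ) : ∃ ρ : ProbabilityMeasure (Fin n → ℝ), Nor (fun _ => 0) r ρ ∧
    ∀ F : BoundedContinuousFunction (Fin n → ℝ) ℝ,
      Tendsto (fun T : ℝ => (∫ t in Set.Ioc 0 T ∩ GS (d T) (V T) (WW D X d T), pd (d T) (WW D X d T) β t * F (YY D X d L β T t)) /
        ∫ t in Set.Ioc 0 T ∩ GS (d T) (V T) (WW D X d T), pd (d T) (WW D X d T) β t) atTop (𝓝 (∫ x, F x ∂(ρ : Measure (Fin n → ℝ)))) ∧
      ((∀ j, 0 ≤ β j) → ∑ j, β j < 2 →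
        Tendsto (fun T : ℝ => (∫ t in Set.Ioc 0 T, pd (d T) (WW D X d T) β t * F (YY D X d L β T t)) /
          ∫ t in Set.Ioc 0 T, pd (d T) (WW D X d T) β t) atTop (𝓝 (∫ x, F x ∂(ρ : Measure (Fin n → ℝ))))) := by
  obtain ⟨_, ρ, hρ, hF⟩ := h.law β
  refine ⟨ρ, hρ, fun F => ⟨hF F, fun hβ hs => ?_⟩⟩
  obtain ⟨N, hN⟩ : ∃ N : ℝ, N = ‖F‖ := ⟨_, rfl⟩
  have hN0 : 0 ≤ N := by rw [hN]; exact norm_nonneg F
  have hFN : ∀ x, ‖F x‖ ≤ N := fun x => by rw [hN]; exact F.norm_coe_le_norm x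
  obtain ⟨A, hA⟩ : ∃ A : ℝ → ℝ, ∀ T, A T = ∫ t in Set.Ioc 0 T ∩ GS (d T) (V T) (WW D X d T), pd (d T) (WW D X d T) β t * F (YY D X d L β T t) :=
    ⟨_, fun _ => rfl⟩
  obtain ⟨B, hB⟩ : ∃ B : ℝ → ℝ, ∀ T, B T = ∫ t in Set.Ioc 0 T ∩ GS (d T) (V T) (WW D X d T), pd (d T) (WW D X d T) β t := ⟨_, fun _ => rfl⟩
  obtain ⟨a, ha⟩ : ∃ a : ℝ → ℝ, ∀ T, a T = ∫ t in Set.Ioc 0 T \ GS (d T) (V T) (WW D X d T), pd (d T) (WW D X d T) β t * F (YY D X d L β T t) :=
    ⟨_, fun _ => rfl⟩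
  obtain ⟨b, hb⟩ : ∃ b : ℝ → ℝ, ∀ T, b T = ∫ t in Set.Ioc 0 T \ GS (d T) (V T) (WW D X d T), pd (d T) (WW D X d T) β t := ⟨_, fun _ => rfl⟩
  have h1 : Tendsto (fun T => A T / B T) atTop (𝓝 (∫ x, F x ∂(ρ : Measure (Fin n → ℝ)))) := by
    refine (hF F).congr fun T => ?_
    rw [hA, hB]
  have hmass : ∀ᶠ T : ℝ in atTop, T / 2 ≤ B T := (h.mass β).mono fun T hT => by rw [hB]; exact hT
  have hbnn : ∀ T, 0 ≤ b T := fun T => by rw [hb]; exact integral_nonneg fun t => pd_nn _ _ _ _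
  have h2 : Tendsto (fun T => b T / B T) atTop (𝓝 0) := by
    rw [Metric.tendsto_nhds]
    intro ε hε
    filter_upwards [h.badi hβ hs (ε := ε / 4) (by linarith), hmass, eventually_gt_atTop 0] with T g1 g2 g3
    have hBp : 0 < B T := by linarith
    rw [Real.dist_eq, sub_zero, abs_of_nonneg (div_nonneg (hbnn T) hBp.le), div_lt_iff₀ hBp]
    have g4 := g1.2
    rw [← hb] at g4
    have g5 : ε * (T / 2) ≤ ε * B T := mul_le_mul_of_nonneg_left g2 hε.le
    have g6 : 0 < ε * T := by positivity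
    linarith
  have hab : ∀ᶠ T : ℝ in atTop, ‖a T / B T‖ ≤ N * (b T / B T) := by
    filter_upwards [h.badi hβ hs (ε := 1) one_pos, hmass, eventually_gt_atTop 0] with T g1 g2 g3
    have hBp : 0 < B T := by linarith
    rw [norm_div, Real.norm_of_nonneg hBp.le, ← mul_div_assoc]
    refine div_le_div_of_nonneg_right ?_ hBp.le
    rw [ha, hb, ← integral_const_mul]
    refine norm_integral_le_of_norm_le (g1.1.const_mul N) (Eventually.of_forall fun t => ?_)
    rw [norm_mul, Real.norm_of_nonneg (pd_nn _ _ _ _), mul_comm]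
    exact mul_le_mul_of_nonneg_right (hFN _) (pd_nn _ _ _ _)
  have h3 : Tendsto (fun T => a T / B T) atTop (𝓝 0) := by
    have h4 := h2.const_mul N
    rw [mul_zero] at h4
    exact squeeze_zero_norm' hab h4
  have h5 := (h1.add h3).div (h2.const_add 1) (by norm_num)
  rw [add_zero, add_zero, div_one] at h5
  refine h5.congr' ?_
  filter_upwards [h.badi hβ hs (ε := 1) one_pos, hmass, eventually_gt_atTop 0, h.V_pos] with T g1 g2 g3 g4
  have hBp : 0 < B T := by linarith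
  have hGm := GS_m2 (d T) (V T) (WW D X d T)
  have hi1 : IntegrableOn (pd (d T) (WW D X d T) β) (Set.Ioc 0 T ∩ GS (d T) (V T) (WW D X d T)) := pd_int g4 _ _
  have hYm : Measurable fun t => F (YY D X d L β T t) := F.continuous.measurable.comp (YY_meas β T)
  have hmulF : ∀ S : Set ℝ, IntegrableOn (pd (d T) (WW D X d T) β) S → IntegrableOn (fun t => pd (d T) (WW D X d T) β t * F (YY D X d L β T t)) S := by
    intro S hS
    refine Integrable.mono' (hS.norm.const_mul N) ((pd_meas _ _ _).mul hYm).aestronglyMeasurable (Eventually.of_forall fun t => ?_)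
    rw [norm_mul, mul_comm N]
    exact mul_le_mul_of_nonneg_left (hFN _) (norm_nonneg _)
  have hsplit : ∀ f : ℝ → ℝ, IntegrableOn f (Set.Ioc 0 T ∩ GS (d T) (V T) (WW D X d T)) → IntegrableOn f (Set.Ioc 0 T \ GS (d T) (V T) (WW D X d T)) →
      ∫ t in Set.Ioc 0 T, f t = (∫ t in Set.Ioc 0 T ∩ GS (d T) (V T) (WW D X d T), f t) + ∫ t in Set.Ioc 0 T \ GS (d T) (V T) (WW D X d T), f t := by
    intro f hf1 hf2
    rw [← setIntegral_union (Set.disjoint_sdiff_right.mono_left Set.inter_subset_right) (MeasurableSet.diff measurableSet_Ioc hGm) hf1 hf2, Set.inter_union_sdiff]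
  rw [hsplit _ (hmulF _ hi1) (hmulF _ g1.1), hsplit _ hi1 g1.1, ← hA, ← hB, ← ha, ← hb]
  have hb0 := hbnn T
  have hne : B T + b T ≠ 0 := by positivity
  have hne1 : 1 + b T / B T ≠ 0 := by positivity
  show (A T / B T + a T / B T) / (1 + b T / B T) = _
  field_simp

end

end Pool.Agent.X111.PA
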