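import Pool.Agent.X111.PA.Seq
import Pool.Agent.X111.MO.Unt

set_option autoImplicit false
set_option linter.unusedSectionVars false

/-! The central limit theorem at several points near the line, truncated. -/

namespace Pool.Agent.X111.PA

open Finset MeasureTheory Filter Topology
open Pool.Agent.X111.MS
open Pool.Agent.X110.RR (GS GS_meas ratio)
open Pool.Agent.Y746.OA (sp)
open Pool.Agent.Y753.SHL (lf qf Nor)

noncomputable section

variable {n : ℕ} {D X : Fin n → ℝ → ℝ} {d V L : ℝ → ℝ} {r : Fin n → Fin n → ℝ}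

/-- the absolute values -/
def zz (δ : ℝ) (w : Fin n → ℂ) (t : ℝ) (j : Fin n) : ℝ := ‖riemannZeta (sp δ t + w j)‖

lemma zz_meas (δ : ℝ) (w : Fin n → ℂ) (j : Fin n) : Measurable fun t => zz δ w t j := by
  unfold zz
  have h1 : Continuous fun t : ℝ => sp δ t + w j := by
    unfold sp
    fun_prop
  exact (Mz.comp h1.measurable).norm

lemma GS_m2 (δ V : ℝ) (w : Fin n → ℂ) : MeasurableSet (GS δ V w) := by
  have h1 : GS δ V w = ⋂ j, {t | V⁻¹ < zz δ w t j ∧ zz δ w t j < V} := by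
    ext t
    simp only [Set.mem_iInter, Set.mem_ofPred_eq]
    rfl
  rw [h1]
  refine MeasurableSet.iInter fun j => ?_
  exact (measurableSet_lt measurable_const (zz_meas δ w j)).inter (measurableSet_lt (zz_meas δ w j) measurable_const)

/-- the density -/
def pd (δ : ℝ) (w : Fin n → ℂ) (β : Fin n → ℝ) (t : ℝ) : ℝ := ∏ j, zz δ w t j ^ (2 * β j)

lemma pd_nn (δ : ℝ) (w : Fin n → ℂ) (β : Fin n → ℝ) (t : ℝ) : 0 ≤ pd δ w β t :=
  Finset.prod_nonneg fun _ _ => Real.rpow_nonneg (norm_nonneg _) _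

lemma pd_meas (δ : ℝ) (w : Fin n → ℂ) (β : Fin n → ℝ) : Measurable (pd δ w β) := by
  unfold pd
  exact Finset.measurable_fun_prod _ fun j _ => (zz_meas δ w j).pow_const _

lemma pow_abs_le {V z x : ℝ} (h1 : V⁻¹ < z) (h2 : z < V) (hV : 0 < V) : z ^ x ≤ V ^ |x| := by
  have hz : 0 < z := (inv_pos.mpr hV).trans h1
  rcases le_total 0 x with h | h
  · rw [abs_of_nonneg h]
    exact Real.rpow_le_rpow hz.le h2.le h
  · rw [abs_of_nonpos h]
    have h3 : z⁻¹ ≤ V := by
      rw [inv_le_comm₀ hz hV]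
      exact h1.le
    calc z ^ x = (z⁻¹) ^ (-x) := by rw [Real.inv_rpow hz.le, Real.rpow_neg hz.le, inv_inv]
      _ ≤ V ^ (-x) := Real.rpow_le_rpow (inv_nonneg.mpr hz.le) h3 (by linarith)

lemma pd_int {δ V T : ℝ} (hV : 0 < V) (w : Fin n → ℂ) (β : Fin n → ℝ) : IntegrableOn (pd δ w β) (Set.Ioc 0 T ∩ GS δ V w) := by
  have hG : MeasurableSet (Set.Ioc 0 T ∩ GS δ V w) := measurableSet_Ioc.inter (GS_m2 δ V w)
  refine Measure.integrableOn_of_bounded (M := ∏ j, V ^ |2 * β j|) ?_ (pd_meas δ w β).aestronglyMeasurable ?_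
  · exact (measure_lt_top_of_subset Set.inter_subset_left (by rw [Real.volume_Ioc]; exact ENNReal.ofReal_ne_top)).ne
  · filter_upwards [ae_restrict_mem hG] with t ht
    rw [Real.norm_of_nonneg (pd_nn _ _ _ _)]
    unfold pd
    exact Finset.prod_le_prod (fun j _ => Real.rpow_nonneg (norm_nonneg _) _) fun j _ => pow_abs_le (ht.2 j).1 (ht.2 j).2 hV

/-- the normalised logarithms -/
def YY (D X : Fin n → ℝ → ℝ) (d L : ℝ → ℝ) (β : Fin n → ℝ) (T t : ℝ) : Fin n → ℝ := fun j =>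
  (Real.log (zz (d T) (WW D X d T) t j) - ∑ i, β i * ell D X i j T) / Real.sqrt (L T / 2)

lemma YY_meas (β : Fin n → ℝ) (T : ℝ) : Measurable (YY D X d L β T) := by
  unfold YY
  refine measurable_pi_lambda _ fun j => ?_
  exact (((zz_meas _ _ j).log).sub_const _).div_const _

lemma pd_exp {β θ : Fin n → ℝ} {T t : ℝ} (hL : 0 < L T) (hz : ∀ j, 0 < zz (d T) (WW D X d T) t j) :
    pd (d T) (WW D X d T) β t * Real.exp (lf θ (YY D X d L β T t)) =
      Real.exp (-(2 * ∑ j, ee L θ T j * ∑ i, β i * ell D X i j T)) * pd (d T) (WW D X d T) (fun j => β j + ee L θ T j) t := by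
  have hs : 0 < Real.sqrt (L T / 2) := Real.sqrt_pos.mpr (by linarith)
  have h1 : lf θ (YY D X d L β T t) = (∑ j, 2 * ee L θ T j * Real.log (zz (d T) (WW D X d T) t j)) - 2 * ∑ j, ee L θ T j * ∑ i, β i * ell D X i j T := by
    unfold lf YY ee
    rw [Finset.mul_sum, ← Finset.sum_sub_distrib]
    refine Finset.sum_congr rfl fun j _ => ?_
    field_simp
  rw [h1, sub_eq_add_neg, Real.exp_add, Real.exp_sum]
  unfold pd
  rw [mul_comm (Real.exp (-(2 * ∑ j, ee L θ T j * ∑ i, β i * ell D X i j T))), ← mul_assoc, ← Finset.prod_mul_distrib]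
  congr 1
  refine Finset.prod_congr rfl fun j _ => ?_
  rw [mul_add, Real.rpow_add (hz j), mul_comm (2 * ee L θ T j), Real.rpow_def_of_pos (hz j) (2 * ee L θ T j)]

/-- the central limit theorem -/
theorem Hyp.law (h : Hyp D X d V L r) (β : Fin n → ℝ) :
    (∀ᶠ T : ℝ in atTop, 0 < ∫ t in Set.Ioc 0 T ∩ GS (d T) (V T) (WW D X d T), pd (d T) (WW D X d T) β t) ∧
    ∃ ρ : ProbabilityMeasure (Fin n → ℝ), Nor (fun _ => 0) r ρ ∧ ∀ F : BoundedContinuousFunction (Fin n → ℝ) ℝ,
      Tendsto (fun T : ℝ => (∫ t in Set.Ioc 0 T ∩ GS (d T) (V T) (WW D X d T), pd (d T) (WW D X d T) β t * F (YY D X d L β T t)) /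
        ∫ t in Set.Ioc 0 T ∩ GS (d T) (V T) (WW D X d T), pd (d T) (WW D X d T) β t) atTop (𝓝 (∫ x, F x ∂(ρ : Measure (Fin n → ℝ)))) := by
  obtain ⟨K, hK⟩ : ∃ K : ℕ, (∑ j, |β j|) + 1 ≤ K := exists_nat_ge _
  have hβ : ∀ j, |β j| + 1 ≤ K := fun j => by
    have := Finset.single_le_sum (f := fun j => |β j|) (fun i _ => abs_nonneg _) (mem_univ j)
    linarith
  have hJI : ∀ (β : Fin n → ℝ) (T : ℝ), ∫ t in Set.Ioc 0 T ∩ GS (d T) (V T) (WW D X d T), pd (d T) (WW D X d T) β t = JI (d T) (V T) T (WW D X d T) β :=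
    fun _ _ => rfl
  have hyK : ∀ᶠ T : ℝ in atTop, ∀ j, |(fun _ : ℝ => β) T j| ≤ K := Eventually.of_forall fun T j => by
    have := hβ j
    simp only
    linarith
  have h0 := h.mom (y := fun _ => β) hyK
  have hDG : ∀ (y : ℝ → Fin n → ℝ), (∀ᶠ T : ℝ in atTop, ∀ j, |y T j| ≤ K) → ∀ᶠ T : ℝ in atTop, 1 ≤ DG (y T) (WW D X d T) (d T) := by
    intro y hy
    filter_upwards [hy, h.rng 1 1 0 one_pos] with T hyT ⟨g1, g2, g3, g4, g5, g6⟩
    exact DG_ge hyT (fun j => (g6 j).1) g2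
  have hpos : ∀ᶠ T : ℝ in atTop, 0 < JI (d T) (V T) T (WW D X d T) β := by
    filter_upwards [h0.eventually (lt_mem_nhds (show (0:ℝ) < 1 by norm_num)), hDG _ hyK, eventually_gt_atTop 0] with T g1 g2 g3
    by_contra hcon
    push Not at hcon
    have : JI (d T) (V T) T (WW D X d T) β / (T * DG β (WW D X d T) (d T)) ≤ 0 := div_nonpos_of_nonpos_of_nonneg hcon (by positivity)
    linarith
  refine ⟨hpos.mono fun T hT => by rw [hJI]; exact hT, ?_⟩
  have key : ∀ θ : Fin n → ℝ, ∀ᶠ T : ℝ in atTop, ∀ t ∈ Set.Ioc 0 T ∩ GS (d T) (V T) (WW D X d T),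
      pd (d T) (WW D X d T) β t * Real.exp (lf θ (YY D X d L β T t)) =
      Real.exp (-(2 * ∑ j, ee L θ T j * ∑ i, β i * ell D X i j T)) * pd (d T) (WW D X d T) (fun j => β j + ee L θ T j) t := by
    intro θ
    filter_upwards [h.L_inf.eventually_gt_atTop 0, h.V_pos] with T hL hV t ht
    exact pd_exp hL fun j => (inv_pos.mpr hV).trans (ht.2 j).1
  refine cltn (p := fun T => pd (d T) (WW D X d T) β) (Y := fun T => YY D X d L β T)
    (ms := fun T => volume.restrict (Set.Ioc 0 T ∩ GS (d T) (V T) (WW D X d T))) (Eventually.of_forall fun T => ⟨pd_meas _ _ _, pd_nn _ _ _⟩)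
    (Eventually.of_forall fun T => YY_meas β T) ?_ ?_ h.r_symm ?_
  · filter_upwards [hpos, h.V_pos] with T h1 h2
    exact ⟨pd_int h2 _ _, by rw [hJI]; exact h1⟩
  · intro θ
    filter_upwards [key θ, h.V_pos] with T h1 h2
    have h3 : IntegrableOn (fun t => Real.exp (-(2 * ∑ j, ee L θ T j * ∑ i, β i * ell D X i j T)) *
        pd (d T) (WW D X d T) (fun j => β j + ee L θ T j) t) (Set.Ioc 0 T ∩ GS (d T) (V T) (WW D X d T)) := (pd_int h2 _ _).const_mul _
    exact h3.congr_fun (fun t ht => (h1 t ht).symm) (measurableSet_Ioc.inter (GS_m2 _ _ _))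
  · intro θ
    have hsm : ∀ᶠ T : ℝ in atTop, ∀ j, |β j + ee L θ T j| ≤ K := by
      rw [eventually_all]
      intro j
      have h4 := (ee_tend h.L_inf θ j).abs
      rw [abs_zero] at h4
      filter_upwards [h4.eventually (gt_mem_nhds one_pos)] with T h5
      have := abs_add_le (β j) (ee L θ T j)
      linarith [hβ j]
    have h1 := h.mom (y := fun T j => β j + ee L θ T j) hsm
    have h2 := (Real.continuous_exp.tendsto _).comp (h.ex β θ)
    have h3 := (h1.div h0 one_ne_zero).mul h2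
    rw [div_one, one_mul] at h3
    refine h3.congr' ?_
    filter_upwards [key θ, hpos, hDG _ hyK, hDG _ hsm, eventually_gt_atTop 0] with T g1 g2 g3 g4 g5
    have e1 : ∫ t in Set.Ioc 0 T ∩ GS (d T) (V T) (WW D X d T), pd (d T) (WW D X d T) β t * Real.exp (lf θ (YY D X d L β T t)) =
        Real.exp (-(2 * ∑ j, ee L θ T j * ∑ i, β i * ell D X i j T)) * JI (d T) (V T) T (WW D X d T) (fun j => β j + ee L θ T j) := by
      rw [setIntegral_congr_fun (measurableSet_Ioc.inter (GS_m2 _ _ _)) g1, integral_const_mul, hJI]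
    rw [e1, hJI]
    have e2 : Real.exp (EX D X d L β θ T) = DG (fun j => β j + ee L θ T j) (WW D X d T) (d T) / DG β (WW D X d T) (d T) *
        Real.exp (-(2 * ∑ j, ee L θ T j * ∑ i, β i * ell D X i j T)) := by
      unfold EX
      rw [sub_eq_add_neg, Real.exp_add, Real.exp_sub, Real.exp_log (by linarith), Real.exp_log (by linarith)]
    show JI (d T) (V T) T (WW D X d T) (fun j => β j + ee L θ T j) / (T * DG (fun j => β j + ee L θ T j) (WW D X d T) (d T)) /
      (JI (d T) (V T) T (WW D X d T) β / (T * DG β (WW D X d T) (d T))) * Real.exp (EX D X d L β θ T) = _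
    rw [e2]
    have g3' : DG β (WW D X d T) (d T) ≠ 0 := by linarith
    have g4' : DG (fun j => β j + ee L θ T j) (WW D X d T) (d T) ≠ 0 := by linarith
    have g2' := g2.ne'
    have g5' := g5.ne'
    field_simp

end

end Pool.Agent.X111.PA
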