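import Pool.Agent.X111.PA.Cont

set_option autoImplicit false
set_option linter.unusedSectionVars false

/-! The change of the diagonal sum under a small change of the exponents. -/

namespace Pool.Agent.X111.PA

open Finset MeasureTheory Filter Topology
open Pool.Agent.X111.MS

noncomputable section

/-- the sum over the primes -/
def SS (u : ℂ) : ℝ := (∑' p : Nat.Primes, ((p : ℕ) : ℂ) ^ (-(1 + u))).re

lemma SS_bd : ∃ C : ℝ, 0 < C ∧ ∀ u : ℂ, 0 < u.re → ‖u‖ ≤ 3 → |SS u + Real.log ‖u‖| ≤ C := by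
  obtain ⟨C1, hC1, hC⟩ := zeta_pole
  have hP2 : 0 ≤ P2 := tsum_nonneg fun p => by positivity
  refine ⟨P2 + C1, by linarith, fun u hu hu3 => ?_⟩
  have h2 := log_zeta (s := 1 + u) (by rw [Complex.add_re, Complex.one_re]; linarith)
  have h3 := hC _ hu hu3
  unfold SS
  obtain ⟨a1, a2⟩ := abs_le.mp h2
  obtain ⟨b1, b2⟩ := abs_le.mp h3
  rw [abs_le]
  constructor <;> linarith

variable {m K : ℕ}

lemma sumP {y : Fin m → ℝ} {w : Fin m → ℂ} {δ : ℝ} (hw : ∀ j, 0 ≤ (w j).re) (hδ : 0 < δ) :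
    ∑' p : Nat.Primes, fT y w δ p = ∑ i, ∑ j, y i * y j * SS (uu δ (w i) (w j)) := by
  have hu : ∀ i j, 0 < (uu δ (w i) (w j)).re := by
    intro i j
    rw [uu_re]
    linarith [hw i, hw j]
  have hij : ∀ i j, Summable fun p : Nat.Primes => (((p : ℕ) : ℂ) ^ (-(1 + uu δ (w i) (w j)))).re := by
    intro i j
    exact Complex.reCLM.summable (pw_summable (s := 1 + uu δ (w i) (w j)) (by rw [Complex.add_re, Complex.one_re]; linarith [hu i j]))
  have h2 : ∀ p : Nat.Primes, fT y w δ p = ∑ i, ∑ j, y i * y j * (((p : ℕ) : ℂ) ^ (-(1 + uu δ (w i) (w j)))).re := fun p => fT_prime y w δ p.2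
  simp_rw [h2]
  rw [Summable.tsum_finsetSum fun i _ => summable_sum fun j _ => (hij i j).mul_left _]
  refine Finset.sum_congr rfl fun i _ => ?_
  rw [Summable.tsum_finsetSum fun j _ => (hij i j).mul_left _]
  refine Finset.sum_congr rfl fun j _ => ?_
  unfold SS
  rw [tsum_mul_left, Complex.re_tsum (pw_summable (s := 1 + uu δ (w i) (w j)) (by rw [Complex.add_re, Complex.one_re]; linarith [hu i j]))]

lemma uu_norm {a b : Fin m → ℝ} {δ : ℝ} (ha : ∀ j, 0 ≤ a j ∧ a j ≤ 1 / 16) (hb : ∀ j, |b j| ≤ 1) (hδ : 0 < δ) (hδ1 : δ ≤ 1 / 16) (i j : Fin m) :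
    0 < (uu δ (wv a b i) (wv a b j)).re ∧ ‖uu δ (wv a b i) (wv a b j)‖ ≤ 3 := by
  constructor
  · rw [uu_re, wv_re, wv_re]
    linarith [(ha i).1, (ha j).1]
  · unfold uu
    have n1 : ∀ j, ‖wv a b j‖ ≤ 17 / 16 := fun j => (Complex.norm_le_abs_re_add_abs_im _).trans (by
      rw [wv_re, wv_im, abs_of_nonneg (ha j).1]
      linarith [(ha j).2, hb j])
    have n2 : ‖(starRingEnd ℂ) (wv a b j)‖ ≤ 17 / 16 := by
      rw [RCLike.norm_conj]
      exact n1 j
    have n3 : ‖((2 * δ : ℝ) : ℂ)‖ ≤ 1 / 8 := by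
      rw [Complex.norm_real, Real.norm_of_nonneg (by linarith)]
      linarith
    refine (norm_add_le _ _).trans ?_
    have := norm_add_le ((2 * δ : ℝ) : ℂ) (wv a b i)
    linarith [n1 i]

/-- the change of the diagonal sum -/
theorem dgd (hK : 0 < m * K) {ε : ℝ} (hε : 0 < ε) : ∃ η : ℝ, 0 < η ∧ ∀ (y e a b : Fin m → ℝ) (δ : ℝ),
    (∀ j, |y j| ≤ K) → (∀ j, |y j + e j| ≤ K) → (∀ j, |e j| < η) → (∀ j, 0 ≤ a j ∧ a j ≤ 1 / 16) → (∀ j, |b j| ≤ 1) → 0 < δ → δ ≤ 1 / 16 →
    |Real.log (DG (fun j => y j + e j) (wv a b) δ) - Real.log (DG y (wv a b) δ) +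
      ∑ i, ∑ j, (y i * e j + e i * y j + e i * e j) * Real.log ‖uu δ (wv a b i) (wv a b j)‖| < ε := by
  obtain ⟨C, hC, hS⟩ := SS_bd
  obtain ⟨η1, hη1, hR⟩ := RR_unif hK (half_pos hε)
  obtain ⟨G, hG⟩ : ∃ G : ℝ, G = (m * m) * (2 * K * C) + 1 := ⟨_, rfl⟩
  have hG0 : 0 < G := by rw [hG]; positivity
  refine ⟨min η1 (ε / (2 * G)), lt_min hη1 (by positivity), fun y e a b δ hy hy' he ha hb hδ hδ1 => ?_⟩
  have he1 : ∀ j, |e j| < η1 := fun j => (he j).trans_le (min_le_left _ _)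
  have he2 : ∀ j, |e j| ≤ ε / (2 * G) := fun j => ((he j).trans_le (min_le_right _ _)).le
  have hw : ∀ j, 0 ≤ (wv a b j).re := fun j => by rw [wv_re]; exact (ha j).1
  have h1 := DG_R hK hy hw hδ
  have h2 := DG_R hK hy' hw hδ
  rw [sumP hw hδ] at h1 h2
  have h3 := hR (fun j => y j + e j) y a b δ hy' hy (fun j => by
    have : y j + e j - y j = e j := by ring
    rw [this]
    exact he1 j) (fun j => ⟨(ha j).1, by linarith [(ha j).2]⟩) hb hδ.le (by linarith)
  have h4 : |∑ i, ∑ j, (y i * e j + e i * y j + e i * e j) * (SS (uu δ (wv a b i) (wv a b j)) + Real.log ‖uu δ (wv a b i) (wv a b j)‖)| ≤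
      (m * m) * (2 * K * (ε / (2 * G)) * C) := by
    refine (Finset.abs_sum_le_sum_abs _ _).trans ?_
    have h6 : ∀ i ∈ (univ : Finset (Fin m)), |∑ j, (y i * e j + e i * y j + e i * e j) *
        (SS (uu δ (wv a b i) (wv a b j)) + Real.log ‖uu δ (wv a b i) (wv a b j)‖)| ≤ m * (2 * K * (ε / (2 * G)) * C) := by
      intro i _
      refine (Finset.abs_sum_le_sum_abs _ _).trans ?_
      have h7 : ∀ j ∈ (univ : Finset (Fin m)), |(y i * e j + e i * y j + e i * e j) *
          (SS (uu δ (wv a b i) (wv a b j)) + Real.log ‖uu δ (wv a b i) (wv a b j)‖)| ≤ 2 * K * (ε / (2 * G)) * C := by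
        intro j _
        rw [abs_mul]
        obtain ⟨u1, u2⟩ := uu_norm ha hb hδ hδ1 i j
        refine mul_le_mul ?_ (hS _ u1 u2) (abs_nonneg _) (by positivity)
        have e1 : y i * e j + e i * y j + e i * e j = y i * e j + e i * (y j + e j) := by ring
        rw [e1]
        refine (abs_add_le _ _).trans ?_
        rw [abs_mul, abs_mul]
        have g1 : |y i| * |e j| ≤ K * (ε / (2 * G)) := mul_le_mul (hy i) (he2 j) (abs_nonneg _) (Nat.cast_nonneg _)
        have g2 : |e i| * |y j + e j| ≤ ε / (2 * G) * K := mul_le_mul (he2 i) (hy' j) (abs_nonneg _) (by positivity)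
        linarith
      refine (Finset.sum_le_sum h7).trans (le_of_eq ?_)
      rw [Finset.sum_const, card_univ, Fintype.card_fin, nsmul_eq_mul]
    refine (Finset.sum_le_sum h6).trans (le_of_eq ?_)
    rw [Finset.sum_const, card_univ, Fintype.card_fin, nsmul_eq_mul]
    ring
  have h5 : (m * m : ℝ) * (2 * K * (ε / (2 * G)) * C) < ε / 2 := by
    have e1 : (m * m : ℝ) * (2 * K * (ε / (2 * G)) * C) = (m * m) * (2 * K * C) * (ε / (2 * G)) := by ring
    rw [e1]
    have e2 : ε / 2 = G * (ε / (2 * G)) := by field_simp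
    rw [e2]
    refine mul_lt_mul_of_pos_right ?_ (by positivity)
    rw [hG]
    linarith
  have h6 : Real.log (DG (fun j => y j + e j) (wv a b) δ) - Real.log (DG y (wv a b) δ) +
      ∑ i, ∑ j, (y i * e j + e i * y j + e i * e j) * Real.log ‖uu δ (wv a b i) (wv a b j)‖ =
      (RR (fun j => y j + e j) (wv a b) δ - RR y (wv a b) δ) +
      ∑ i, ∑ j, (y i * e j + e i * y j + e i * e j) * (SS (uu δ (wv a b i) (wv a b j)) + Real.log ‖uu δ (wv a b i) (wv a b j)‖) := by
    rw [h1, h2]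
    have e3 : ∑ i, ∑ j, (y i * e j + e i * y j + e i * e j) * (SS (uu δ (wv a b i) (wv a b j)) + Real.log ‖uu δ (wv a b i) (wv a b j)‖) =
        (∑ i, ∑ j, (y i + e i) * (y j + e j) * SS (uu δ (wv a b i) (wv a b j))) - (∑ i, ∑ j, y i * y j * SS (uu δ (wv a b i) (wv a b j))) +
        ∑ i, ∑ j, (y i * e j + e i * y j + e i * e j) * Real.log ‖uu δ (wv a b i) (wv a b j)‖ := by
      rw [← Finset.sum_sub_distrib, ← Finset.sum_add_distrib]
      refine Finset.sum_congr rfl fun i _ => ?_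
      rw [← Finset.sum_sub_distrib, ← Finset.sum_add_distrib]
      refine Finset.sum_congr rfl fun j _ => ?_
      ring
    rw [e3]
    ring
  rw [h6]
  refine (abs_add_le _ _).trans_lt ?_
  linarith

end

end Pool.Agent.X111.PA
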