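import Pool.Agent.X111.LD.Fin

set_option autoImplicit false
set_option linter.unusedSectionVars false

/-! Convergence to a normal law on `ℝ^n` under weights. -/

namespace Pool.Agent.X111.PA

open MeasureTheory Filter Topology ProbabilityTheory
open Pool.Agent.Y753.SHL
open Pool.Agent.X111.LD

noncomputable section

variable {n : ℕ}

/-- the law of `Y` under the density `p` with respect to `m` -/
def wn (p : ℝ → ℝ) (Y : ℝ → Fin n → ℝ) (m : Measure ℝ) : Measure (Fin n → ℝ) :=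
  (m.withDensity fun t => ENNReal.ofReal (p t)).map Y

lemma wn_integral {p : ℝ → ℝ} {Y : ℝ → Fin n → ℝ} {m : Measure ℝ} (hp : Measurable p) (h0 : ∀ t, 0 ≤ p t) (hY : Measurable Y)
    {g : (Fin n → ℝ) → ℝ} (hg : Continuous g) : ∫ x, g x ∂(wn p Y m) = ∫ t, p t * g (Y t) ∂m := by
  have hz : Measurable fun t => ENNReal.ofReal (p t) := ENNReal.measurable_ofReal.comp hp
  unfold wn
  rw [integral_map hY.aemeasurable hg.aestronglyMeasurable,
    integral_withDensity_eq_integral_toReal_smul hz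
      (Eventually.of_forall fun _ => ENNReal.ofReal_lt_top)]
  refine integral_congr_ae (Eventually.of_forall fun t => ?_)
  show (ENNReal.ofReal (p t)).toReal • g (Y t) = p t * g (Y t)
  rw [ENNReal.toReal_ofReal (h0 t), smul_eq_mul]

lemma wn_integrable {p : ℝ → ℝ} {Y : ℝ → Fin n → ℝ} {m : Measure ℝ} (hp : Measurable p) (h0 : ∀ t, 0 ≤ p t) (hY : Measurable Y)
    {g : (Fin n → ℝ) → ℝ} (hg : Continuous g) (hi : Integrable (fun t => p t * g (Y t)) m) :
    Integrable g (wn p Y m) := by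
  have hz : Measurable fun t => ENNReal.ofReal (p t) := ENNReal.measurable_ofReal.comp hp
  unfold wn
  rw [integrable_map_measure hg.aestronglyMeasurable hY.aemeasurable,
    integrable_withDensity_iff_integrable_smul' hz
      (Eventually.of_forall fun _ => ENNReal.ofReal_lt_top)]
  refine hi.congr (Eventually.of_forall fun t => ?_)
  show p t * g (Y t) = (ENNReal.ofReal (p t)).toReal • (g ∘ Y) t
  rw [ENNReal.toReal_ofReal (h0 t), smul_eq_mul, Function.comp]

lemma wn_prob {p : ℝ → ℝ} {Y : ℝ → Fin n → ℝ} {m : Measure ℝ} (h0 : ∀ t, 0 ≤ p t) (hi : Integrable p m) (hY : Measurable Y)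
    (h1 : ∫ t, p t ∂m = 1) : IsProbabilityMeasure (wn p Y m) := by
  constructor
  unfold wn
  rw [Measure.map_apply hY MeasurableSet.univ, Set.preimage_univ, withDensity_apply _ MeasurableSet.univ,
    Measure.restrict_univ, ← ofReal_integral_eq_lintegral_ofReal hi (Eventually.of_forall h0), h1, ENNReal.ofReal_one]

/-- the limit theorem -/
theorem cltn {p : ℝ → ℝ → ℝ} {Y : ℝ → ℝ → Fin n → ℝ} {ms : ℝ → Measure ℝ} (hp : ∀ᶠ T : ℝ in atTop, Measurable (p T) ∧ ∀ t, 0 ≤ p T t)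
    (hY : ∀ᶠ T : ℝ in atTop, Measurable (Y T))
    (hi0 : ∀ᶠ T : ℝ in atTop, Integrable (p T) (ms T) ∧ 0 < ∫ t, p T t ∂(ms T))
    (hint : ∀ θ : Fin n → ℝ, ∀ᶠ T : ℝ in atTop, Integrable (fun t => p T t * Real.exp (lf θ (Y T t))) (ms T))
    {C : Fin n → Fin n → ℝ} (hC : ∀ i j, C i j = C j i)
    (hm : ∀ θ : Fin n → ℝ, Tendsto (fun T : ℝ => (∫ t, p T t * Real.exp (lf θ (Y T t)) ∂(ms T)) / ∫ t, p T t ∂(ms T)) atTop
      (𝓝 (Real.exp (qf C θ / 2)))) :
    ∃ ρ : ProbabilityMeasure (Fin n → ℝ), Nor (fun _ => 0) C ρ ∧ ∀ F : BoundedContinuousFunction (Fin n → ℝ) ℝ,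
      Tendsto (fun T : ℝ => (∫ t, p T t * F (Y T t) ∂(ms T)) / ∫ t, p T t ∂(ms T)) atTop (𝓝 (∫ x, F x ∂(ρ : Measure (Fin n → ℝ)))) := by
  classical
  obtain ⟨m, hmd⟩ : ∃ m : ℝ → ℝ, ∀ T, m T = ∫ t, p T t ∂(ms T) := ⟨_, fun _ => rfl⟩
  simp only [← hmd] at hi0 hm ⊢
  obtain ⟨q, hq⟩ : ∃ q : ℝ → ℝ → ℝ, ∀ T t, q T t = p T t / m T := ⟨_, fun _ _ => rfl⟩
  have hq1 : ∀ᶠ T : ℝ in atTop, Measurable (q T) ∧ (∀ t, 0 ≤ q T t) ∧ Integrable (q T) (ms T) ∧ ∫ t, q T t ∂(ms T) = 1 := by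
    filter_upwards [hp, hi0] with T h1 h2
    have e : q T = fun t => p T t / m T := funext (hq T)
    rw [e]
    refine ⟨h1.1.div_const _, fun t => div_nonneg (h1.2 t) h2.2.le, h2.1.div_const _, ?_⟩
    rw [integral_div, ← hmd, div_self h2.2.ne']
  obtain ⟨γ⟩ : Nonempty (ProbabilityMeasure (Fin n → ℝ)) := ⟨⟨Measure.dirac 0, inferInstance⟩⟩
  obtain ⟨μ, hμ⟩ : ∃ μ : ℝ → ProbabilityMeasure (Fin n → ℝ), ∀ᶠ T : ℝ in atTop, (μ T : Measure (Fin n → ℝ)) = wn (q T) (Y T) (ms T) := by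
    have hex : ∀ T : ℝ, ∃ μT : ProbabilityMeasure (Fin n → ℝ), IsProbabilityMeasure (wn (q T) (Y T) (ms T)) →
        (μT : Measure (Fin n → ℝ)) = wn (q T) (Y T) (ms T) := by
      intro T
      by_cases h : IsProbabilityMeasure (wn (q T) (Y T) (ms T))
      · exact ⟨⟨wn (q T) (Y T) (ms T), h⟩, fun _ => rfl⟩
      · exact ⟨γ, fun h1 => absurd h1 h⟩
    choose μ hμ using hex
    refine ⟨μ, ?_⟩
    filter_upwards [hq1, hY] with T h1 h2
    exact hμ T (wn_prob h1.2.1 h1.2.2.1 h2 h1.2.2.2)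
  have hexp : ∀ θ : Fin n → ℝ, Continuous fun y : Fin n → ℝ => Real.exp (lf θ y) := fun θ => Real.continuous_exp.comp (lf_cont θ)
  have hlf0 : ∀ θ : Fin n → ℝ, lf θ (fun _ => 0) = 0 := fun θ => by
    unfold lf
    simp
  obtain ⟨ρ, hρ, hT⟩ := land n μ (fun _ => 0) C 1 one_pos hC (fun θ _ _ => ⟨by
      filter_upwards [hint θ, hq1, hY, hμ] with T h1 h2 h3 h4
      rw [h4]
      refine wn_integrable h2.1 h2.2.1 h3 (hexp θ) ?_
      have h6 := h1.div_const (m T)
      refine h6.congr (Eventually.of_forall fun t => ?_)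
      show p T t * Real.exp (lf θ (Y T t)) / m T = q T t * Real.exp (lf θ (Y T t))
      rw [hq]; ring, by
      rw [hlf0, zero_add]
      refine (hm θ).congr' ?_
      filter_upwards [hq1, hY, hμ] with T h2 h3 h4
      rw [h4, wn_integral h2.1 h2.2.1 h3 (hexp θ)]
      rw [← integral_div]
      refine integral_congr_ae (Eventually.of_forall fun t => ?_)
      show p T t * Real.exp (lf θ (Y T t)) / m T = q T t * Real.exp (lf θ (Y T t))
      rw [hq]; ring⟩)
  refine ⟨ρ, hρ, fun F => ?_⟩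
  have h1 := ProbabilityMeasure.tendsto_iff_forall_integral_tendsto.mp hT F
  refine h1.congr' ?_
  filter_upwards [hq1, hY, hμ] with T h3 h4 h5
  rw [h5, wn_integral h3.1 h3.2.1 h4 F.continuous, ← integral_div]
  refine integral_congr_ae (Eventually.of_forall fun t => ?_)
  show q T t * F (Y T t) = p T t * F (Y T t) / m T
  rw [hq]
  ring

end

end Pool.Agent.X111.PA
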