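import Pool.Agent.X111.MS.Jm

set_option autoImplicit false
set_option linter.unusedSectionVars false

/-! The regular part of the logarithm of the diagonal sum is uniformly continuous. -/

namespace Pool.Agent.X111.PA

open Finset MeasureTheory Filter Topology
open Pool.Agent.H306R2 (lc dv dA lc_nonneg lc_sq_le lc_summable C0 C0_summable C0_nonneg dv_nonneg dv_one dv_prime_pow lc_one dA_mult dA_apply inv_prime
  primes_summable)
open Pool.Agent.X110.RR (tw2 tw2_apply Ty Ty_le)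
open Pool.Agent.X111.MS

noncomputable section

/-- the constant -/
def cB (m K : ℕ) : ℝ := ((m * K : ℕ) : ℝ) ^ 4 + C0 ((m * K : ℕ) : ℝ)

section

variable {m K : ℕ} {y : Fin m → ℝ} {w : Fin m → ℂ} {δ : ℝ}

lemma logE_bd (hK : 0 < m * K) (hy : ∀ j, |y j| ≤ K) (hw : ∀ j, 0 ≤ (w j).re) (hδ : 0 ≤ δ) (p : Nat.Primes) :
    |Real.log (Ep y w δ p) - fT y w δ p| ≤ cB m K * (1 / ((p : ℕ) : ℝ)) ^ 2 := by
  have hK' : (0:ℝ) < ((m * K : ℕ) : ℝ) := by exact_mod_cast hK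
  have hC0 := C0_nonneg hK'
  obtain ⟨h1, h2⟩ := Ep_two hK hy hw hδ p.2
  have h3 := fT_nn y w δ (p : ℕ)
  have h4 := fT_p_le hy hw hδ p.2
  have h5 : fT y w δ (p : ℕ) ^ 2 ≤ ((m * K : ℕ) : ℝ) ^ 4 * (1 / ((p : ℕ) : ℝ)) ^ 2 := by
    refine (pow_le_pow_left₀ h3 h4 2).trans (le_of_eq ?_)
    ring
  have h6 : 0 ≤ (1 / ((p : ℕ) : ℝ)) ^ 2 := by positivity
  have h7 : 0 ≤ C0 ((m * K : ℕ) : ℝ) * (1 / ((p : ℕ) : ℝ)) ^ 2 := mul_nonneg hC0 h6
  unfold cB
  rw [abs_le]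
  constructor
  · have h8 := Real.log_le_log (by linarith) h1
    have h9 := (abs_le.mp (Pool.Agent.H306R2.log_bd h3)).1
    nlinarith
  · have h8 := Real.log_le_sub_one_of_pos (show 0 < Ep y w δ p by linarith)
    have h10 : 0 ≤ ((m * K : ℕ) : ℝ) ^ 4 * (1 / ((p : ℕ) : ℝ)) ^ 2 := by positivity
    nlinarith

lemma Ep_pos (hK : 0 < m * K) (hy : ∀ j, |y j| ≤ K) (hw : ∀ j, 0 ≤ (w j).re) (hδ : 0 ≤ δ) (p : Nat.Primes) : 0 < Ep y w δ p := by
  have h1 := (Ep_two hK hy hw hδ p.2).1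
  have h3 := fT_nn y w δ (p : ℕ)
  linarith

/-- the regular part -/
def RR (y : Fin m → ℝ) (w : Fin m → ℂ) (δ : ℝ) : ℝ := ∑' p : Nat.Primes, (Real.log (Ep y w δ p) - fT y w δ p)

lemma DG_R (hK : 0 < m * K) (hy : ∀ j, |y j| ≤ K) (hw : ∀ j, 0 ≤ (w j).re) (hδ : 0 < δ) :
    Real.log (DG y w δ) = RR y w δ + ∑' p : Nat.Primes, fT y w δ p := by
  have hs : Summable (fun p : Nat.Primes => fT y w δ p) := (fT_summable hy hw hδ).comp_injective Nat.Primes.coe_nat_injective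
  have hsq : Summable fun p : Nat.Primes => cB m K * (1 / ((p : ℕ) : ℝ)) ^ 2 := primes_summable.mul_left _
  have hdiff : Summable fun p : Nat.Primes => Real.log (Ep y w δ p) - fT y w δ p :=
    Summable.of_norm_bounded hsq fun p => logE_bd hK hy hw hδ.le p
  have hlogs : Summable fun p : Nat.Primes => Real.log (Ep y w δ p) := by
    refine (hdiff.add hs).congr fun p => ?_
    ring
  have h1 : DG y w δ = Real.exp (∑' p : Nat.Primes, Real.log (Ep y w δ p)) := by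
    have h2 := hlogs.hasSum.rexp
    have h3 : (Real.exp ∘ fun p : Nat.Primes => Real.log (Ep y w δ p)) = fun p : Nat.Primes => Ep y w δ p := by
      funext p
      exact Real.exp_log (Ep_pos hK hy hw hδ.le p)
    rw [h3] at h2
    exact (DG_prod hy hw hδ).unique h2
  unfold RR
  rw [h1, Real.log_exp, ← hdiff.tsum_add hs]
  refine tsum_congr fun p => ?_
  ring

end

/-- the shifts -/
def wv {m : ℕ} (a b : Fin m → ℝ) (j : Fin m) : ℂ := (a j : ℂ) + (b j : ℂ) * Complex.I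

lemma wv_re {m : ℕ} (a b : Fin m → ℝ) (j : Fin m) : (wv a b j).re = a j := by
  unfold wv
  simp

lemma wv_im {m : ℕ} (a b : Fin m → ℝ) (j : Fin m) : (wv a b j).im = b j := by
  unfold wv
  simp

/-- the parameters -/
abbrev PS (m : ℕ) : Type := (Fin m → ℝ) × (Fin m → ℝ) × (Fin m → ℝ) × ℝ

/-- the compact set of parameters -/
def QQ (m K : ℕ) : Set (PS m) := Set.Icc ((fun _ => -(K : ℝ)), (fun _ => 0), (fun _ => -1), 0) ((fun _ => (K : ℝ)), (fun _ => 1), (fun _ => 1), 1)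

lemma QQ_comp (m K : ℕ) : IsCompact (QQ m K) := isCompact_Icc

lemma QQ_mem {m K : ℕ} {z : PS m} (hz : z ∈ QQ m K) : (∀ j, |z.1 j| ≤ K) ∧ (∀ j, 0 ≤ (wv z.2.1 z.2.2.1 j).re) ∧ 0 ≤ z.2.2.2 := by
  obtain ⟨h1, h2⟩ := hz
  refine ⟨fun j => abs_le.mpr ⟨h1.1 j, h2.1 j⟩, fun j => ?_, h1.2.2.2⟩
  rw [wv_re]
  exact h1.2.1 j

lemma dv_cont (n : ℕ) : Continuous fun x : ℝ => dv x n := by
  unfold dv
  split_ifs with h
  · exact continuous_const
  · unfold Finsupp.prod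
    refine continuous_finsetProd _ fun p _ => ?_
    unfold lc
    refine continuous_finsetProd _ fun i _ => ?_
    fun_prop

lemma tw_cont {m : ℕ} (j : Fin m) (n : ℕ) : Continuous fun z : PS m => tw2 (z.1 j) (wv z.2.1 z.2.2.1 j) n := by
  rcases Nat.eq_zero_or_pos n with h | h
  · subst h
    simp only [ArithmeticFunction.map_zero]
    exact continuous_const
  · simp only [tw2_apply]
    have hn : (n : ℂ) ≠ 0 := by exact_mod_cast h.ne'
    have h1 : Continuous fun z : PS m => ((dv (z.1 j) n : ℝ) : ℂ) := Complex.continuous_ofReal.comp ((dv_cont n).comp (by fun_prop))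
    refine h1.mul ?_
    refine Continuous.const_cpow ?_ (Or.inl hn)
    unfold wv
    fun_prop

lemma pr_cont {m : ℕ} (s : Finset (Fin m)) : ∀ n : ℕ, Continuous fun z : PS m => (∏ j ∈ s, tw2 (z.1 j) (wv z.2.1 z.2.2.1 j)) n := by
  classical
  induction s using Finset.induction_on with
  | empty =>
    intro n
    simp only [prod_empty]
    exact continuous_const
  | insert a s ha ih =>
    intro n
    simp only [prod_insert ha, ArithmeticFunction.mul_apply]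
    refine continuous_finsetSum _ fun x _ => ?_
    exact (tw_cont a x.1).mul (ih x.2)

lemma fT_cont {m : ℕ} {n : ℕ} (hn : 0 < n) : Continuous fun z : PS m => fT z.1 (wv z.2.1 z.2.2.1) z.2.2.2 n := by
  unfold fT Ty
  have h1 : Continuous fun z : PS m => ‖(∏ j, tw2 (z.1 j) (wv z.2.1 z.2.2.1 j)) n‖ ^ 2 := (pr_cont univ n).norm.pow 2
  have h2 : Continuous fun z : PS m => (n : ℝ) ^ (-1 - 2 * z.2.2.2) := by
    refine Continuous.rpow continuous_const (by fun_prop) fun z => Or.inl ?_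
    exact_mod_cast hn.ne'
  exact h1.mul h2

lemma Ep_cont {m K : ℕ} (hK : 0 < m * K) (p : Nat.Primes) : ContinuousOn (fun z : PS m => Ep z.1 (wv z.2.1 z.2.2.1) z.2.2.2 p) (QQ m K) := by
  unfold Ep
  have hp' := inv_prime p.2
  have hK' : (0:ℝ) < ((m * K : ℕ) : ℝ) := by exact_mod_cast hK
  refine continuousOn_tsum (u := fun e => lc (((m * K : ℕ) : ℝ) ^ 2) e * (1 / ((p : ℕ) : ℝ)) ^ e) (fun e => ?_)
    (lc_summable (by positivity) hp'.1 (by linarith [hp'.2])) fun e z hz => ?_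
  · exact (fT_cont (pow_pos p.2.pos e)).continuousOn
  · obtain ⟨h1, h2, h3⟩ := QQ_mem hz
    rw [Real.norm_of_nonneg (fT_nn _ _ _ _)]
    exact fT_pp h1 h2 h3 p.2 e

lemma RR_cont {m K : ℕ} (hK : 0 < m * K) : ContinuousOn (fun z : PS m => RR z.1 (wv z.2.1 z.2.2.1) z.2.2.2) (QQ m K) := by
  unfold RR
  refine continuousOn_tsum (u := fun p : Nat.Primes => cB m K * (1 / ((p : ℕ) : ℝ)) ^ 2) (fun p => ?_) (primes_summable.mul_left _) fun p z hz => ?_
  · refine ((Ep_cont hK p).log fun z hz => ?_).sub (fT_cont p.2.pos).continuousOn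
    obtain ⟨h1, h2, h3⟩ := QQ_mem hz
    exact (Ep_pos hK h1 h2 h3 p).ne'
  · obtain ⟨h1, h2, h3⟩ := QQ_mem hz
    exact logE_bd hK h1 h2 h3 p

/-- uniform continuity in the exponents -/
theorem RR_unif {m K : ℕ} (hK : 0 < m * K) {ε : ℝ} (hε : 0 < ε) : ∃ η : ℝ, 0 < η ∧ ∀ (y y' a b : Fin m → ℝ) (δ : ℝ),
    (∀ j, |y j| ≤ K) → (∀ j, |y' j| ≤ K) → (∀ j, |y j - y' j| < η) → (∀ j, 0 ≤ a j ∧ a j ≤ 1) → (∀ j, |b j| ≤ 1) → 0 ≤ δ → δ ≤ 1 →
    |RR y (wv a b) δ - RR y' (wv a b) δ| < ε := by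
  have h1 := (QQ_comp m K).uniformContinuousOn_of_continuous (RR_cont hK)
  rw [Metric.uniformContinuousOn_iff] at h1
  obtain ⟨η, hη, h2⟩ := h1 ε hε
  refine ⟨η, hη, fun y y' a b δ hy hy' hyy ha hb hδ hδ1 => ?_⟩
  have hm : ∀ x : Fin m → ℝ, (∀ j, |x j| ≤ K) → ((x, a, b, δ) : PS m) ∈ QQ m K := by
    intro x hx
    refine ⟨⟨fun j => (abs_le.mp (hx j)).1, fun j => (ha j).1, fun j => (abs_le.mp (hb j)).1, hδ⟩,
      ⟨fun j => (abs_le.mp (hx j)).2, fun j => (ha j).2, fun j => (abs_le.mp (hb j)).2, hδ1⟩⟩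
  have h3 := h2 (y, a, b, δ) (hm y hy) (y', a, b, δ) (hm y' hy') (by
    rw [Prod.dist_eq, dist_self, max_lt_iff]
    refine ⟨?_, hη⟩
    rw [dist_pi_lt_iff hη]
    exact fun j => by rw [Real.dist_eq]; exact hyy j)
  rwa [Real.dist_eq] at h3

end

end Pool.Agent.X111.PA
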