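import Pool.Agent.X111.PA.Pr
import Pool.Agent.X111.PA.Clt

set_option autoImplicit false
set_option linter.unusedSectionVars false

/-! Moments at several points near the line: the limit of the Laplace transforms. -/

namespace Pool.Agent.X111.PA

open Finset MeasureTheory Filter Topology
open Pool.Agent.X111.MS
open Pool.Agent.X110.RR (GS GS_meas ratio)
open Pool.Agent.Y746.OA (sp)
open Pool.Agent.Y753.SHL (lf qf Nor)

noncomputable section

/-- the hypotheses on the points and the truncation -/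
structure Hyp {n : ℕ} (D X : Fin n → ℝ → ℝ) (d V L : ℝ → ℝ) (r : Fin n → Fin n → ℝ) : Prop where
  n_pos : 0 < n
  pos : ∀ᶠ T : ℝ in atTop, ∀ j, d T ≤ D j T ∧ D j T ≤ 1 / 16 ∧ |X j T| ≤ 1
  dist : Tendsto (fun T => d T * Real.log T / Real.log (Real.log T)) atTop atTop
  V_pos : ∀ᶠ T : ℝ in atTop, 0 < V T
  V_large : Tendsto (fun T => Real.log (V T) / Real.log (Real.log T)) atTop atTop
  V_small : Tendsto (fun T => Real.log (V T) / (d T * Real.log T)) atTop (𝓝 0)
  L_inf : Tendsto L atTop atTop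
  cov : ∀ i j, Tendsto (fun T => -(Real.log ((D i T + D j T) ^ 2 + (X i T - X j T) ^ 2) / 2) / L T) atTop (𝓝 (r i j))

/-- the shifts -/
def WW {n : ℕ} (D X : Fin n → ℝ → ℝ) (d : ℝ → ℝ) (T : ℝ) : Fin n → ℂ := wv (fun j => D j T - d T) (fun j => X j T)

/-- the logarithms of the distances -/
def ell {n : ℕ} (D X : Fin n → ℝ → ℝ) (i j : Fin n) (T : ℝ) : ℝ := -(Real.log ((D i T + D j T) ^ 2 + (X i T - X j T) ^ 2) / 2)

variable {n : ℕ} {D X : Fin n → ℝ → ℝ} {d V L : ℝ → ℝ} {r : Fin n → Fin n → ℝ}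

lemma ell_symm (i j : Fin n) (T : ℝ) : ell D X i j T = ell D X j i T := by
  unfold ell
  congr 3
  ring

lemma log_uu (i j : Fin n) (T : ℝ) : Real.log ‖uu (d T) (WW D X d T i) (WW D X d T j)‖ = -ell D X i j T := by
  have h1 : uu (d T) (WW D X d T i) (WW D X d T j) = ((D i T + D j T : ℝ) : ℂ) + ((X i T - X j T : ℝ) : ℂ) * Complex.I := by
    unfold uu WW wv
    rw [map_add, map_mul, Complex.conj_ofReal, Complex.conj_ofReal, Complex.conj_I]
    push_cast
    ring
  have h2 : ‖uu (d T) (WW D X d T i) (WW D X d T j)‖ = Real.sqrt ((D i T + D j T) ^ 2 + (X i T - X j T) ^ 2) := by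
    rw [h1, Complex.norm_add_mul_I]
  rw [h2]
  unfold ell
  rw [neg_neg, Real.log_sqrt (by positivity)]

lemma Hyp.r_symm (h : Hyp D X d V L r) (i j : Fin n) : r i j = r j i := by
  refine tendsto_nhds_unique (h.cov i j) ((h.cov j i).congr fun T => ?_)
  have := ell_symm (D := D) (X := X) i j T
  unfold ell at this
  rw [this]

lemma ev_ll1 : ∀ᶠ T : ℝ in atTop, 4 ≤ T ∧ 3 ≤ Real.log T ∧ 1 ≤ Real.log (Real.log T) := by
  filter_upwards [Real.tendsto_log_atTop.eventually_ge_atTop (3:ℝ), Real.tendsto_log_atTop.eventually_ge_atTop (Real.exp 1), eventually_ge_atTop 4] with T h1 h2 h4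
  refine ⟨h4, h1, ?_⟩
  have h3 := Real.log_le_log (Real.exp_pos 1) h2
  rwa [Real.log_exp] at h3

/-- the range of the parameters -/
lemma Hyp.rng (h : Hyp D X d V L r) (c C : ℝ) (A : ℕ) (hc : 0 < c) : ∀ᶠ T : ℝ in atTop,
    C * Real.log (Real.log T) / Real.log T ≤ d T ∧ 0 < d T ∧ d T ≤ 1 / 16 ∧ Real.log T ^ A ≤ V T ∧ V T ≤ T ^ (c * d T) ∧
    ∀ j, 0 ≤ (WW D X d T j).re ∧ d T + (WW D X d T j).re ≤ 1 / 16 ∧ |(WW D X d T j).im| ≤ 1 := by
  filter_upwards [h.pos, h.dist.eventually_ge_atTop (max C 1), h.V_pos, h.V_large.eventually_ge_atTop (A:ℝ), h.V_small.eventually (ge_mem_nhds hc), ev_ll1]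
    with T h1 h2 h3 h4 h5 ⟨hT, hL, hll⟩
  have hL0 : 0 < Real.log T := by linarith
  have hll0 : 0 < Real.log (Real.log T) := by linarith
  rw [le_div_iff₀ hll0] at h2 h4
  have h6 : C * Real.log (Real.log T) ≤ d T * Real.log T := le_trans (mul_le_mul_of_nonneg_right (le_max_left _ _) hll0.le) h2
  have h7 : 1 * Real.log (Real.log T) ≤ d T * Real.log T := le_trans (mul_le_mul_of_nonneg_right (le_max_right _ _) hll0.le) h2
  have hd0 : 0 < d T := by
    by_contra hcon
    push Not at hcon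
    have : d T * Real.log T ≤ 0 := mul_nonpos_of_nonpos_of_nonneg hcon hL0.le
    linarith
  have hdl : 0 < d T * Real.log T := by positivity
  rw [div_le_iff₀ hdl] at h5
  refine ⟨by rw [div_le_iff₀ hL0]; exact h6, hd0, ?_, ?_, ?_, fun j => ?_⟩
  · obtain ⟨g1, g2, _⟩ := h1 ⟨0, h.n_pos⟩
    linarith
  · rw [← Real.log_le_log_iff (by positivity) h3, Real.log_pow]
    exact h4
  · rw [← Real.log_le_log_iff h3 (by positivity), Real.log_rpow (by linarith)]
    linarith
  · obtain ⟨g1, g2, g3⟩ := h1 j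
    unfold WW
    rw [wv_re, wv_im]
    exact ⟨by linarith, by linarith, g3⟩

/-- the moments and the diagonal sums -/
theorem Hyp.mom (h : Hyp D X d V L r) {K : ℕ} {y : ℝ → Fin n → ℝ} (hy : ∀ᶠ T : ℝ in atTop, ∀ j, |y T j| ≤ K) :
    Tendsto (fun T => JI (d T) (V T) T (WW D X d T) (y T) / (T * DG (y T) (WW D X d T) (d T))) atTop (𝓝 1) := by
  obtain ⟨c, hc, h1⟩ := ratio n K
  obtain ⟨A, C, T0, hC, h2⟩ := h1 1
  have h3 : Tendsto (fun T : ℝ => 1 / Real.log T) atTop (𝓝 0) := Real.tendsto_log_atTop.const_div_atTop 1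
  have h4 : Tendsto (fun T => JI (d T) (V T) T (WW D X d T) (y T) / (T * DG (y T) (WW D X d T) (d T)) - 1) atTop (𝓝 0) := by
    refine squeeze_zero_norm' ?_ h3
    filter_upwards [h.rng c C A hc, hy, eventually_ge_atTop T0, ev_ll1] with T ⟨g1, g2, g3, g4, g5, g6⟩ hyT hT0 ⟨hT, hL, hll⟩
    obtain ⟨_, _, _, _, k1⟩ := h2 T hT0 (d T) g1 g3
    obtain ⟨k2, -⟩ := k1 (V T) g4 g5 (WW D X d T) (y T) (fun _ => 0) (fun j => ⟨(g6 j).1, (g6 j).2.1, (g6 j).2.2.trans (by linarith)⟩) hyT
      (fun j => by simp)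
    have hD := DG_ge hyT (fun j => (g6 j).1) g2
    rw [diag_DG] at k2
    have e1 : ∫ t in Set.Ioc 0 T ∩ GS (d T) (V T) (WW D X d T), Pool.Agent.X110.RR.Zf (d T) (WW D X d T) (y T) (fun _ => 0) t =
        ((JI (d T) (V T) T (WW D X d T) (y T) : ℝ) : ℂ) := by
      unfold JI
      simp_rw [Zf_zero]
      exact integral_ofReal
    rw [e1] at k2
    have e2 : ((JI (d T) (V T) T (WW D X d T) (y T) : ℝ) : ℂ) - (T : ℂ) * ((DG (y T) (WW D X d T) (d T) : ℝ) : ℂ) =
        ((JI (d T) (V T) T (WW D X d T) (y T) - T * DG (y T) (WW D X d T) (d T) : ℝ) : ℂ) := by push_cast; rfl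
    rw [e2, Complex.norm_real, Real.norm_eq_abs, pow_one] at k2
    have hT0' : 0 < T := by linarith
    have hTD : 0 < T * DG (y T) (WW D X d T) (d T) := by positivity
    have e3 : JI (d T) (V T) T (WW D X d T) (y T) / (T * DG (y T) (WW D X d T) (d T)) - 1 =
        (JI (d T) (V T) T (WW D X d T) (y T) - T * DG (y T) (WW D X d T) (d T)) / (T * DG (y T) (WW D X d T) (d T)) := by
      field_simp
    rw [e3, Real.norm_eq_abs, abs_div, abs_of_pos hTD, div_le_iff₀ hTD]
    refine k2.trans ?_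
    rw [one_div, ← div_eq_inv_mul]
    refine div_le_div_of_nonneg_right ?_ (by linarith)
    exact le_mul_of_one_le_right hT0'.le hD
  have h5 := h4.add_const 1
  simp only [sub_add_cancel, zero_add] at h5
  exact h5

/-- the small exponents -/
def ee (L : ℝ → ℝ) (θ : Fin n → ℝ) (T : ℝ) (j : Fin n) : ℝ := θ j / (2 * Real.sqrt (L T / 2))

lemma ee_tend (hL : Tendsto L atTop atTop) (θ : Fin n → ℝ) (j : Fin n) : Tendsto (fun T => ee L θ T j) atTop (𝓝 0) := by
  unfold ee
  refine Tendsto.const_div_atTop ?_ _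
  have h1 : Tendsto (fun T => Real.sqrt (L T / 2)) atTop atTop := Real.tendsto_sqrt_atTop.comp (hL.atTop_div_const (by norm_num))
  exact h1.const_mul_atTop (by norm_num)

/-- the exponent -/
def EX (D X : Fin n → ℝ → ℝ) (d L : ℝ → ℝ) (β θ : Fin n → ℝ) (T : ℝ) : ℝ :=
  Real.log (DG (fun j => β j + ee L θ T j) (WW D X d T) (d T)) - Real.log (DG β (WW D X d T) (d T)) -
    2 * ∑ j, ee L θ T j * ∑ i, β i * ell D X i j T

theorem Hyp.ex (h : Hyp D X d V L r) (β θ : Fin n → ℝ) : Tendsto (EX D X d L β θ) atTop (𝓝 (qf r θ / 2)) := by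
  obtain ⟨K, hK⟩ : ∃ K : ℕ, (∑ j, |β j|) + 1 ≤ K := exists_nat_ge _
  have hβ : ∀ j, |β j| + 1 ≤ K := fun j => by
    have := Finset.single_le_sum (f := fun j => |β j|) (fun i _ => abs_nonneg _) (mem_univ j)
    linarith
  have hK0 : 0 < n * K := by
    have h1 : (0:ℝ) < K := by
      have := hβ ⟨0, h.n_pos⟩
      linarith [abs_nonneg (β ⟨0, h.n_pos⟩)]
    have h2 : 0 < K := by exact_mod_cast h1
    exact Nat.mul_pos h.n_pos h2
  -- the main term
  have h1 : Tendsto (fun T => ∑ i, ∑ j, ee L θ T i * ee L θ T j * ell D X i j T) atTop (𝓝 (qf r θ / 2)) := by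
    have h2 : qf r θ / 2 = ∑ i, ∑ j, θ i * θ j * r i j / 2 := by
      unfold qf
      rw [Finset.sum_div]
      refine Finset.sum_congr rfl fun i _ => ?_
      rw [Finset.sum_div]
    rw [h2]
    refine tendsto_finsetSum _ fun i _ => tendsto_finsetSum _ fun j _ => ?_
    have h3 := (h.cov i j).const_mul (θ i * θ j / 2)
    have e1 : θ i * θ j / 2 * r i j = θ i * θ j * r i j / 2 := by ring
    rw [e1] at h3
    refine h3.congr' ?_
    filter_upwards [h.L_inf.eventually_gt_atTop 0] with T hL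
    have hs : Real.sqrt (L T / 2) * Real.sqrt (L T / 2) = L T / 2 := Real.mul_self_sqrt (by linarith)
    unfold ee ell
    have hs0 : 0 < Real.sqrt (L T / 2) := Real.sqrt_pos.mpr (by linarith)
    obtain ⟨s, hsd⟩ : ∃ s : ℝ, s = Real.sqrt (L T / 2) := ⟨_, rfl⟩
    rw [← hsd] at hs hs0 ⊢
    have hL2 : L T = 2 * (s * s) := by linarith
    rw [hL2]
    field_simp
  -- the error
  have h2 : Tendsto (fun T => EX D X d L β θ T - ∑ i, ∑ j, ee L θ T i * ee L θ T j * ell D X i j T) atTop (𝓝 0) := by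
    rw [Metric.tendsto_nhds]
    intro ε hε
    obtain ⟨η, hη, hd⟩ := dgd (m := n) hK0 hε
    have hsm : ∀ᶠ T : ℝ in atTop, ∀ j, |ee L θ T j| < min η 1 := by
      rw [eventually_all]
      intro j
      have h4 := (ee_tend h.L_inf θ j).abs
      rw [abs_zero] at h4
      exact h4.eventually (gt_mem_nhds (lt_min hη one_pos))
    filter_upwards [h.rng 1 1 0 one_pos, h.pos, hsm] with T ⟨g1, g2, g3, g4, g5, g6⟩ hp hs
    have hs1 : ∀ j, |ee L θ T j| < η := fun j => (hs j).trans_le (min_le_left _ _)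
    have hs2 : ∀ j, |ee L θ T j| < 1 := fun j => (hs j).trans_le (min_le_right _ _)
    have h5 := hd β (ee L θ T) (fun j => D j T - d T) (fun j => X j T) (d T) (fun j => by linarith [hβ j]) (fun j => by
      have := abs_add_le (β j) (ee L θ T j)
      linarith [hβ j, hs2 j]) hs1 (fun j => by
        obtain ⟨a1, a2, a3⟩ := hp j
        exact ⟨by linarith, by linarith⟩) (fun j => (hp j).2.2) g2 g3
    rw [Real.dist_eq, sub_zero]
    have e1 : EX D X d L β θ T - ∑ i, ∑ j, ee L θ T i * ee L θ T j * ell D X i j T =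
        Real.log (DG (fun j => β j + ee L θ T j) (wv (fun j => D j T - d T) fun j => X j T) (d T)) -
        Real.log (DG β (wv (fun j => D j T - d T) fun j => X j T) (d T)) +
        ∑ i, ∑ j, (β i * ee L θ T j + ee L θ T i * β j + ee L θ T i * ee L θ T j) *
          Real.log ‖uu (d T) (wv (fun j => D j T - d T) (fun j => X j T) i) (wv (fun j => D j T - d T) (fun j => X j T) j)‖ := by
      have e2 : ∀ i j, Real.log ‖uu (d T) (wv (fun j => D j T - d T) (fun j => X j T) i) (wv (fun j => D j T - d T) (fun j => X j T) j)‖ = -ell D X i j T :=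
        fun i j => log_uu i j T
      simp only [e2]
      have e3 : ∑ i, ∑ j, ee L θ T i * β j * ell D X i j T = ∑ i, ∑ j, β i * ee L θ T j * ell D X i j T := by
        rw [Finset.sum_comm]
        refine Finset.sum_congr rfl fun i _ => Finset.sum_congr rfl fun j _ => ?_
        rw [ell_symm]
        ring
      have e4 : ∑ j, ee L θ T j * ∑ i, β i * ell D X i j T = ∑ i, ∑ j, β i * ee L θ T j * ell D X i j T := by
        rw [Finset.sum_comm]
        refine Finset.sum_congr rfl fun j _ => ?_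
        rw [Finset.mul_sum]
        refine Finset.sum_congr rfl fun i _ => ?_
        ring
      have e5 : ∑ i, ∑ j, (β i * ee L θ T j + ee L θ T i * β j + ee L θ T i * ee L θ T j) * -ell D X i j T =
          -(∑ i, ∑ j, β i * ee L θ T j * ell D X i j T) - (∑ i, ∑ j, ee L θ T i * β j * ell D X i j T) -
          ∑ i, ∑ j, ee L θ T i * ee L θ T j * ell D X i j T := by
        rw [← Finset.sum_neg_distrib, ← Finset.sum_sub_distrib, ← Finset.sum_sub_distrib]
        refine Finset.sum_congr rfl fun i _ => ?_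
        rw [← Finset.sum_neg_distrib, ← Finset.sum_sub_distrib, ← Finset.sum_sub_distrib]
        refine Finset.sum_congr rfl fun j _ => ?_
        ring
      unfold EX
      rw [e5, e3, e4]
      unfold WW
      ring
    rw [e1]
    exact h5
  have h3 := h2.add h1
  rw [zero_add] at h3
  refine h3.congr fun T => ?_
  ring

end

end Pool.Agent.X111.PA
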