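import Pool.Agent.X111.PA.Law

set_option autoImplicit false
set_option linter.unusedSectionVars false

/-! The central limit theorem at several points near the line without truncation, orders below four. -/

namespace Pool.Agent.X111.PA

open Finset MeasureTheory Filter Topology
open Pool.Agent.X111.MS
open Pool.Agent.X110.RR (GS GS_meas ratio)
open Pool.Agent.Y746.OA (sp)
open Pool.Agent.Y753.SHL (lf qf Nor)

noncomputable section

variable {n : ℕ} {D X : Fin n → ℝ → ℝ} {d V L : ℝ → ℝ} {r : Fin n → Fin n → ℝ}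

/-- the excluded sets are small -/
theorem Hyp.bad (h : Hyp D X d V L r) (B : ℕ) : ∀ᶠ T : ℝ in atTop,
    (volume (Set.Ioc 0 T \ GS (d T) (V T) (WW D X d T))).toReal ≤ T / Real.log T ^ B := by
  obtain ⟨c, hc, h1⟩ := ratio n 1
  obtain ⟨A, C, T0, hC, h2⟩ := h1 B
  filter_upwards [h.rng c C A hc, eventually_ge_atTop T0, ev_ll1] with T ⟨g1, g2, g3, g4, g5, g6⟩ hT0 ⟨hT, hL, hll⟩
  obtain ⟨_, _, _, _, k1⟩ := h2 T hT0 (d T) g1 g3
  exact (k1 (V T) g4 g5 (WW D X d T) (fun _ => 0) (fun _ => 0) (fun j => ⟨(g6 j).1, (g6 j).2.1, (g6 j).2.2.trans (by linarith)⟩)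
    (fun j => by simp) (fun j => by simp)).2

lemma zz_Zh (T t : ℝ) (j : Fin n) : zz (d T) (WW D X d T) t j = Pool.Agent.X111.MO.Zh (D j T) (X j T) t := by
  unfold zz Pool.Agent.X111.MO.Zh WW wv sp
  congr 2
  push_cast
  ring

/-- the fourth moments -/
theorem Hyp.four (h : Hyp D X d V L r) : ∃ C : ℝ, 0 < C ∧ ∀ᶠ T : ℝ in atTop, ∀ j,
    ∫⁻ t in Set.Ioc 0 T, ENNReal.ofReal (zz (d T) (WW D X d T) t j ^ (4:ℝ)) ≤ ENNReal.ofReal (C * T * Real.log T ^ 4) := by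
  obtain ⟨lam, C, hlam, hC, h4⟩ := Pool.Agent.X111.MO.four
  refine ⟨C, hC, ?_⟩
  filter_upwards [h4, h.pos, h.rng 1 lam 0 one_pos, ev_ll1] with T g4 gp ⟨g1, g2, g3, _, _, _⟩ ⟨hT, hL, hll⟩ j
  simp only [zz_Zh]
  obtain ⟨a1, a2, a3⟩ := gp j
  refine g4 (D j T) ?_ a2 (X j T) a3
  refine le_trans (div_le_div_of_nonneg_right ?_ (by linarith)) (g1.trans a1)
  exact le_mul_of_one_le_right (by linarith) hll

/-- Hoelder's inequality -/
lemma hold {z : ℝ → ℝ} (hz : Measurable z) (h0 : ∀ t, 0 ≤ z t) {s M Y T : ℝ} (hs : 0 ≤ s) (hs2 : s < 2) (hM0 : 0 ≤ M) (hY0 : 0 ≤ Y) {S : Set ℝ}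
    (hS : S ⊆ Set.Ioc 0 T) (hM : ∫⁻ t in Set.Ioc 0 T, ENNReal.ofReal (z t ^ (4:ℝ)) ≤ ENNReal.ofReal M) (hY : (volume S).toReal ≤ Y) :
    ∫⁻ t in S, ENNReal.ofReal (z t ^ (2 * s)) ≤ ENNReal.ofReal (M ^ (s / 2) * Y ^ (1 - s / 2)) := by
  have h1 : ∀ t : ℝ, ENNReal.ofReal (z t ^ (2 * s)) = ENNReal.ofReal (z t ^ (4:ℝ)) ^ (s / 2) * (1:ENNReal) ^ (1 - s / 2) := by
    intro t
    rw [ENNReal.one_rpow, mul_one, ENNReal.ofReal_rpow_of_nonneg (Real.rpow_nonneg (h0 t) _) (by linarith), ← Real.rpow_mul (h0 t)]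
    congr 2
    ring
  simp only [h1]
  have hZm : Measurable fun t : ℝ => ENNReal.ofReal (z t ^ (4:ℝ)) := (hz.pow_const _).ennreal_ofReal
  have h2 := ENNReal.lintegral_mul_norm_pow_le (μ := volume.restrict S) (f := fun t => ENNReal.ofReal (z t ^ (4:ℝ)))
    (g := fun _ => (1:ENNReal)) (p := s / 2) (q := 1 - s / 2) hZm.aemeasurable aemeasurable_const (by linarith) (by linarith) (by ring)
  refine h2.trans ?_
  rw [lintegral_const, one_mul, Measure.restrict_apply_univ, ENNReal.ofReal_mul (by positivity)]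
  refine mul_le_mul' ?_ ?_
  · rw [← ENNReal.ofReal_rpow_of_nonneg hM0 (by linarith)]
    refine ENNReal.rpow_le_rpow ?_ (by linarith)
    exact (lintegral_mono_set hS).trans hM
  · rw [← ENNReal.ofReal_rpow_of_nonneg hY0 (by linarith)]
    refine ENNReal.rpow_le_rpow ?_ (by linarith)
    have hfin : volume S ≠ ⊤ := (measure_lt_top_of_subset hS (by rw [Real.volume_Ioc]; exact ENNReal.ofReal_ne_top)).ne
    rw [← ENNReal.ofReal_toReal hfin]
    exact ENNReal.ofReal_le_ofReal hY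

/-- the product and the powers -/
lemma pd_le (hn : 0 < n) {β : Fin n → ℝ} (hβ : ∀ j, 0 ≤ β j) (δ : ℝ) (w : Fin n → ℂ) (t : ℝ) :
    pd δ w β t ≤ ∑ j, zz δ w t j ^ (2 * ∑ i, β i) := by
  have : Nonempty (Fin n) := ⟨⟨0, hn⟩⟩
  obtain ⟨i, hi⟩ := Finite.exists_max fun j => zz δ w t j
  have h0 : ∀ j, 0 ≤ zz δ w t j := fun j => norm_nonneg _
  have h1 : pd δ w β t ≤ zz δ w t i ^ (2 * ∑ j, β j) := by
    unfold pd
    calc ∏ j, zz δ w t j ^ (2 * β j) ≤ ∏ j, zz δ w t i ^ (2 * β j) :=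
          Finset.prod_le_prod (fun j _ => Real.rpow_nonneg (h0 j) _) fun j _ => Real.rpow_le_rpow (h0 j) (hi j) (by linarith [hβ j])
      _ = zz δ w t i ^ (2 * ∑ j, β j) := by
        rw [Finset.mul_sum]
        have hb : ∀ j ∈ (univ : Finset (Fin n)), 0 ≤ 2 * β j := fun j _ => by linarith [hβ j]
        exact (Real.rpow_sum_of_nonneg (h0 i) hb).symm
  refine h1.trans ?_
  exact Finset.single_le_sum (f := fun j => zz δ w t j ^ (2 * ∑ i, β i)) (fun j _ => Real.rpow_nonneg (h0 j) _) (mem_univ i)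

/-- the contribution of the excluded sets -/
theorem Hyp.badm (h : Hyp D X d V L r) {β : Fin n → ℝ} (hβ : ∀ j, 0 ≤ β j) (hs : ∑ j, β j < 2) {ε : ℝ} (hε : 0 < ε) : ∀ᶠ T : ℝ in atTop,
    ∫⁻ t in Set.Ioc 0 T \ GS (d T) (V T) (WW D X d T), ENNReal.ofReal (pd (d T) (WW D X d T) β t) ≤ ENNReal.ofReal (ε * T) := by
  obtain ⟨s, hsd⟩ : ∃ s : ℝ, s = ∑ j, β j := ⟨_, rfl⟩
  rw [← hsd] at hs
  have hs0 : 0 ≤ s := by rw [hsd]; exact Finset.sum_nonneg fun j _ => hβ j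
  obtain ⟨B, hB⟩ : ∃ B : ℕ, 2 * s + 1 ≤ B * (1 - s / 2) := by
    obtain ⟨B, hB⟩ := exists_nat_ge ((2 * s + 1) / (1 - s / 2))
    exact ⟨B, by rwa [div_le_iff₀ (by linarith)] at hB⟩
  obtain ⟨C, hC, h4⟩ := h.four
  filter_upwards [h.bad B, h4, ev_ll1, Real.tendsto_log_atTop.eventually_ge_atTop (n * C ^ (s / 2) / ε)] with T hb h4T ⟨hT, hL, hll⟩ hLε
  have hT0 : 0 < T := by linarith
  have hL0 : 0 < Real.log T := by linarith
  have h1 : ∀ j, ∫⁻ t in Set.Ioc 0 T \ GS (d T) (V T) (WW D X d T), ENNReal.ofReal (zz (d T) (WW D X d T) t j ^ (2 * s)) ≤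
      ENNReal.ofReal ((C * T * Real.log T ^ 4) ^ (s / 2) * (T / Real.log T ^ B) ^ (1 - s / 2)) := fun j =>
    hold (zz_meas _ _ j) (fun t => norm_nonneg _) hs0 hs (by positivity) (by positivity) Set.sdiff_subset (h4T j) hb
  have h2 : (C * T * Real.log T ^ 4) ^ (s / 2) * (T / Real.log T ^ B) ^ (1 - s / 2) ≤ C ^ (s / 2) * (T / Real.log T) := by
    have e1 : (C * T * Real.log T ^ 4) ^ (s / 2) * (T / Real.log T ^ B) ^ (1 - s / 2) = C ^ (s / 2) * (T * Real.log T ^ (2 * s - B * (1 - s / 2))) := by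
      rw [Real.mul_rpow (by positivity) (by positivity), Real.mul_rpow hC.le hT0.le, Real.div_rpow hT0.le (by positivity), ← Real.rpow_natCast _ 4,
        ← Real.rpow_natCast _ B, ← Real.rpow_mul hL0.le, ← Real.rpow_mul hL0.le, Real.rpow_sub hL0]
      have e2 : T ^ (s / 2) * T ^ (1 - s / 2) = T := by
        rw [← Real.rpow_add hT0, show s / 2 + (1 - s / 2) = 1 by ring, Real.rpow_one]
      have e3 : ((4:ℕ):ℝ) * (s / 2) = 2 * s := by push_cast; ring
      rw [e3]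
      calc C ^ (s / 2) * T ^ (s / 2) * Real.log T ^ (2 * s) * (T ^ (1 - s / 2) / Real.log T ^ ((B:ℝ) * (1 - s / 2))) =
          C ^ (s / 2) * ((T ^ (s / 2) * T ^ (1 - s / 2)) * (Real.log T ^ (2 * s) / Real.log T ^ ((B:ℝ) * (1 - s / 2)))) := by ring
        _ = _ := by rw [e2]
    rw [e1]
    refine mul_le_mul_of_nonneg_left ?_ (by positivity)
    rw [div_eq_mul_inv]
    refine mul_le_mul_of_nonneg_left ?_ hT0.le
    have e4 : (Real.log T)⁻¹ = Real.log T ^ (-1:ℝ) := (Real.rpow_neg_one _).symm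
    rw [e4]
    refine Real.rpow_le_rpow_of_exponent_le (by linarith) ?_
    linarith
  calc ∫⁻ t in Set.Ioc 0 T \ GS (d T) (V T) (WW D X d T), ENNReal.ofReal (pd (d T) (WW D X d T) β t) ≤
      ∫⁻ t in Set.Ioc 0 T \ GS (d T) (V T) (WW D X d T), ∑ j, ENNReal.ofReal (zz (d T) (WW D X d T) t j ^ (2 * s)) := by
        refine lintegral_mono fun t => ?_
        rw [← ENNReal.ofReal_sum_of_nonneg (s := univ) (f := fun j => zz (d T) (WW D X d T) t j ^ (2 * s)) fun j _ => Real.rpow_nonneg (norm_nonneg _) _]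
        refine ENNReal.ofReal_le_ofReal ?_
        rw [hsd]
        exact pd_le h.n_pos hβ _ _ _
    _ = ∑ j, ∫⁻ t in Set.Ioc 0 T \ GS (d T) (V T) (WW D X d T), ENNReal.ofReal (zz (d T) (WW D X d T) t j ^ (2 * s)) := by
        refine lintegral_finsetSum _ fun j _ => ?_
        exact ((zz_meas _ _ j).pow_const _).ennreal_ofReal
    _ ≤ ∑ _j : Fin n, ENNReal.ofReal (C ^ (s / 2) * (T / Real.log T)) :=
        Finset.sum_le_sum fun j _ => (h1 j).trans (ENNReal.ofReal_le_ofReal h2)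
    _ = ENNReal.ofReal (n * (C ^ (s / 2) * (T / Real.log T))) := by
        rw [Finset.sum_const, card_univ, Fintype.card_fin, nsmul_eq_mul, ENNReal.ofReal_mul (Nat.cast_nonneg _), ENNReal.ofReal_natCast]
    _ ≤ _ := by
        refine ENNReal.ofReal_le_ofReal ?_
        rw [div_le_iff₀ hε] at hLε
        have e1 : (n:ℝ) * (C ^ (s / 2) * (T / Real.log T)) = (n * C ^ (s / 2)) * T / Real.log T := by ring
        rw [e1, div_le_iff₀ hL0]
        calc (n:ℝ) * C ^ (s / 2) * T ≤ (Real.log T * ε) * T := mul_le_mul_of_nonneg_right hLε hT0.le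
          _ = _ := by ring

end

end Pool.Agent.X111.PA
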